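import Mathlib

set_option autoImplicit false

namespace Pool.Agent.Results.MP_4bc86c_co.PowersOfTwo

open Finset

/-- A proper edge-colouring of the complete graph on the vertex set `V` (the values of `c` on the
loops `s(v, v)` play no role): two edges sharing exactly one vertex get different colours. -/
def IsProper {V C : Type*} (c : Sym2 V → C) : Prop :=
  ∀ x y z : V, y ≠ x → z ≠ x → y ≠ z → c s(x, y) ≠ c s(x, z)

/-- An optimal edge-colouring of `K_n`: a proper one whose number `m` of colours is the least
number of colours of a proper edge-colouring of `K_n`, i.e. the chromatic index of `K_n`. -/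
def IsOptimal {n m : ℕ} (c : Sym2 (Fin n) → Fin m) : Prop :=
  IsProper c ∧ ∀ (m' : ℕ) (c' : Sym2 (Fin n) → Fin m'), IsProper c' → m ≤ m'

/-- The cycle `w` is rainbow: no two of its edges have the same colour. -/
def IsRainbow {V C : Type*} (c : Sym2 V → C) {v : V} (w : (⊤ : SimpleGraph V).Walk v v) : Prop :=
  (w.edges.map c).Nodup

/-! ### Lower bound for the number of colours -/

theorem le_of_isProper {n m : ℕ} {c : Sym2 (Fin n) → Fin m} (hc : IsProper c) (x : Fin n) :
    n - 1 ≤ m := by
  have h : (univ.erase x).card ≤ (univ : Finset (Fin m)).card := by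
    apply card_le_card_of_injOn (fun y => c s(x, y)) (fun _ _ => mem_coe.2 (mem_univ _))
    intro y hy z hz hyz
    by_contra hne
    exact hc x y z (ne_of_mem_erase hy) (ne_of_mem_erase hz) hne hyz
  rw [card_erase_of_mem (mem_univ x), card_univ, card_univ, Fintype.card_fin,
    Fintype.card_fin] at h
  exact h

theorem even_of_card_eq {n m : ℕ} {c : Sym2 (Fin n) → Fin m} (hc : IsProper c)
    (hn : 2 ≤ n) (hm : m = n - 1) : Even n := by
  have hbij : ∀ (x : Fin n) (i : Fin m), ∃ y, y ≠ x ∧ c s(x, y) = i := by
    intro x i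
    have hinj : Set.InjOn (fun y => c s(x, y)) (univ.erase x : Finset (Fin n)) := by
      intro y hy z hz hyz
      by_contra hne
      exact hc x y z (ne_of_mem_erase hy) (ne_of_mem_erase hz) hne hyz
    have himg : (univ.erase x).image (fun y => c s(x, y)) = univ := by
      apply eq_univ_of_card
      rw [card_image_of_injOn hinj, card_erase_of_mem (mem_univ x), card_univ, Fintype.card_fin,
        Fintype.card_fin, hm]
    have hi : i ∈ (univ.erase x).image (fun y => c s(x, y)) := by rw [himg]; exact mem_univ _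
    obtain ⟨y, hy, hyi⟩ := mem_image.1 hi
    exact ⟨y, ne_of_mem_erase hy, hyi⟩
  have i0 : Fin m := ⟨0, by omega⟩
  choose f hf using fun x => hbij x i0
  have hinv : ∀ x, f (f x) = x := by
    intro x
    by_contra hne
    have h1 := (hf x).2
    have h2 := (hf (f x)).2
    rw [Sym2.eq_swap] at h1
    exact hc (f x) (f (f x)) x (hf (f x)).1 (hf x).1.symm hne (h2.trans h1.symm)
  let G : SimpleGraph (Fin n) :=
    { Adj := fun a b => a ≠ b ∧ f a = b
      symm := ⟨fun x _ h => ⟨h.1.symm, by rw [← h.2]; exact hinv x⟩⟩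
      loopless := ⟨fun x h => h.1 rfl⟩ }
  have hpm : (⊤ : G.Subgraph).IsPerfectMatching := by
    constructor
    · intro v _
      refine ⟨f v, ?_, ?_⟩
      · exact ⟨(hf v).1.symm, rfl⟩
      · intro y hy
        exact hy.2.symm
    · intro v
      trivial
  have := hpm.even_card
  simpa using this

/-! ### Sums along closed walks in characteristic two -/

/-- The sum of the labels of the two ends of an edge. -/
def lab {V G : Type*} [AddCommGroup G] (f : V → G) : Sym2 V → G :=
  Sym2.lift ⟨fun x y => f x + f y, fun _ _ => add_comm _ _⟩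

@[simp] theorem lab_mk {V G : Type*} [AddCommGroup G] (f : V → G) (x y : V) :
    lab f s(x, y) = f x + f y := rfl

theorem sum_lab {V G : Type*} [AddCommGroup G] (hG : ∀ g : G, g + g = 0) (f : V → G)
    {u v : V} (w : (⊤ : SimpleGraph V).Walk u v) : (w.edges.map (lab f)).sum = f u + f v := by
  induction w with
  | nil => simp [hG]
  | cons h p ih =>
    rename_i a b c
    rw [SimpleGraph.Walk.edges_cons, List.map_cons, List.sum_cons, ih, lab_mk]
    have := hG (f b)
    calc f a + f b + (f b + f c) = f a + (f b + f b) + f c := by abel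
      _ = f a + f c := by rw [this, add_zero]

theorem sum_univ_eq_zero {k : ℕ} (hk : 2 ≤ k) : ∑ g : Fin k → ZMod 2, g = 0 := by
  funext i
  rw [Finset.sum_apply]
  obtain ⟨j, hj⟩ : ∃ j : Fin k, j ≠ i := by
    have : Nontrivial (Fin k) := Fin.nontrivial_iff_two_le.2 hk
    exact exists_ne i
  refine Finset.sum_involution (fun g _ => g + Pi.single j 1) ?_ ?_ ?_ ?_
  · intro g _
    simp only [Pi.add_apply, Pi.single_eq_of_ne hj.symm, add_zero]
    exact CharTwo.add_self_eq_zero _
  · intro g _ _ h
    have h1 := congrFun h j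
    simp at h1
  · intro g _
    exact mem_univ _
  · intro g _
    funext l
    have : (Pi.single j 1 : Fin k → ZMod 2) l + (Pi.single j 1 : Fin k → ZMod 2) l = 0 :=
      CharTwo.add_self_eq_zero _
    simp only [Pi.add_apply]
    rw [add_assoc, this, add_zero]

theorem add_self {k : ℕ} (g : Fin k → ZMod 2) : g + g = 0 := by
  funext i
  exact CharTwo.add_self_eq_zero _

theorem eq_of_add_eq_zero {k : ℕ} {a b : Fin k → ZMod 2} (h : a + b = 0) : a = b := by
  have h1 : a + b + b = b := by rw [h, zero_add]
  rwa [add_assoc, add_self, add_zero] at h1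

theorem card_vec (k : ℕ) : Fintype.card (Fin k → ZMod 2) = 2 ^ k := by
  rw [Fintype.card_fun, ZMod.card, Fintype.card_fin]

theorem card_nonzero (k : ℕ) : Fintype.card {g : Fin k → ZMod 2 // g ≠ 0} = 2 ^ k - 1 := by
  rw [Fintype.card_subtype_compl, card_vec]
  simp

/-- An injective labelling of the `n` vertices by vectors over the field with two elements. -/
theorem exists_label {k n : ℕ} (hn : n = 2 ^ k ∨ n = 2 ^ k - 1) :
    ∃ f : Fin n → (Fin k → ZMod 2), Function.Injective f := by
  have : Fintype.card (Fin n) ≤ Fintype.card (Fin k → ZMod 2) := by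
    rw [card_vec, Fintype.card_fin]
    rcases hn with hn | hn
    · exact hn.le
    · rw [hn]
      exact Nat.sub_le _ _
  exact (Function.Embedding.nonempty_of_card_le this).elim fun e => ⟨e, e.injective⟩

/-- A list of distinct nonzero vectors with zero sum misses neither exactly one nor exactly two
nonzero vectors. -/
theorem no_short {k : ℕ} (hk : 3 ≤ k) (L : List (Fin k → ZMod 2)) (hL : L.Nodup)
    (h0 : ∀ g ∈ L, g ≠ 0) (hs : L.sum = 0) (hl : L.length = 2 ^ k - 2 ∨ L.length = 2 ^ k - 3) :
    False := by
  classical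
  have hpow : 2 ^ 3 ≤ 2 ^ k := Nat.pow_le_pow_right (by norm_num) hk
  set S := L.toFinset with hS
  have hcard : S.card = L.length := List.toFinset_card_of_nodup hL
  have hsub : S ⊆ univ.erase 0 := by
    intro g hg
    rw [hS, List.mem_toFinset] at hg
    exact mem_erase.2 ⟨h0 g hg, mem_univ _⟩
  have hsum : ∑ g ∈ S, g = 0 := by
    rw [hS, List.sum_toFinset _ hL]
    simpa using hs
  have htot : ∑ g ∈ univ.erase (0 : Fin k → ZMod 2), g = 0 := by
    have h1 : ∑ g ∈ univ.erase (0 : Fin k → ZMod 2), g = ∑ g : Fin k → ZMod 2, g :=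
      Finset.sum_erase _ rfl
    exact h1.trans (sum_univ_eq_zero (by omega))
  have hT : ∑ g ∈ univ.erase 0 \ S, g = 0 := by
    have := Finset.sum_sdiff (f := fun g : Fin k → ZMod 2 => g) hsub
    rw [hsum, add_zero, htot] at this
    exact this
  have hTc : (univ.erase (0 : Fin k → ZMod 2) \ S).card = 2 ^ k - 1 - L.length := by
    rw [card_sdiff_of_subset hsub, hcard, card_erase_of_mem (mem_univ _), card_univ, card_vec]
  rcases hl with hl | hl
  · have h1 : (univ.erase (0 : Fin k → ZMod 2) \ S).card = 1 := by omega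
    obtain ⟨d, hd⟩ := card_eq_one.1 h1
    rw [hd, sum_singleton] at hT
    have : d ∈ univ.erase (0 : Fin k → ZMod 2) \ S := by rw [hd]; exact mem_singleton_self d
    exact ne_of_mem_erase (mem_sdiff.1 this).1 hT
  · have h1 : (univ.erase (0 : Fin k → ZMod 2) \ S).card = 2 := by omega
    obtain ⟨a, b, hab, hd⟩ := card_eq_two.1 h1
    rw [hd, sum_pair hab] at hT
    exact hab (eq_of_add_eq_zero hT)

/-- Let `n ≥ 7` be a power of two or one less than a power of two. Then `K_n` has an optimal
edge-colouring without a rainbow cycle of length `n - 2`. -/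
theorem result (k n : ℕ) (hk : 3 ≤ k) (hn : n = 2 ^ k ∨ n = 2 ^ k - 1) :
    ∃ (m : ℕ) (c : Sym2 (Fin n) → Fin m), IsOptimal c ∧
      ∀ (v : Fin n) (w : (⊤ : SimpleGraph (Fin n)).Walk v v), w.IsCycle → w.length = n - 2 →
        ¬ IsRainbow c w := by
  classical
  have hpow : 2 ^ 3 ≤ 2 ^ k := Nat.pow_le_pow_right (by norm_num) hk
  obtain ⟨f, hf⟩ := exists_label hn
  have e : {g : Fin k → ZMod 2 // g ≠ 0} ≃ Fin (2 ^ k - 1) :=
    Fintype.equivFinOfCardEq (card_nonzero k)
  have i0 : Fin (2 ^ k - 1) := ⟨0, by omega⟩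
  let φ : (Fin k → ZMod 2) → Fin (2 ^ k - 1) := fun g => if h : g ≠ 0 then e ⟨g, h⟩ else i0
  have hφ : ∀ a b : Fin k → ZMod 2, a ≠ 0 → b ≠ 0 → φ a = φ b → a = b := by
    intro a b ha hb hab
    simp only [φ, dif_pos ha, dif_pos hb] at hab
    exact congrArg Subtype.val (e.injective hab)
  have hlab : ∀ x y : Fin n, x ≠ y → lab f s(x, y) ≠ 0 := by
    intro x y hxy h
    exact hxy (hf (eq_of_add_eq_zero h))
  have hproper : IsProper (fun s => φ (lab f s)) := by
    intro x y z hy hz hyz h
    have h1 := hφ _ _ (hlab x y hy.symm) (hlab x z hz.symm) h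
    rw [lab_mk, lab_mk] at h1
    exact hyz (hf (add_left_cancel h1))
  refine ⟨2 ^ k - 1, fun s => φ (lab f s), ⟨hproper, ?_⟩, ?_⟩
  · intro m' c' hc'
    have h1 := le_of_isProper hc' ⟨0, by omega⟩
    rcases hn with hn | hn
    · omega
    · by_contra hlt
      have h2 := even_of_card_eq hc' (by omega) (by omega)
      rw [hn] at h2
      have h3 : Even (2 ^ k) := (Nat.even_pow.2 ⟨even_two, by omega⟩)
      rw [Nat.even_iff] at h2 h3
      omega
  · intro v w hw hlen hr
    have hnd : (w.edges.map (lab f)).Nodup := by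
      have : w.edges.map (fun s => φ (lab f s)) = (w.edges.map (lab f)).map φ := by
        rw [List.map_map]
        rfl
      unfold IsRainbow at hr
      rw [this] at hr
      exact List.Nodup.of_map _ hr
    have h0 : ∀ g ∈ w.edges.map (lab f), g ≠ 0 := by
      intro g hg
      obtain ⟨s, hs, rfl⟩ := List.mem_map.1 hg
      have hs' := w.edges_subset_edgeSet hs
      induction s using Sym2.ind with
      | _ x y => exact hlab x y (SimpleGraph.mem_edgeSet _ |>.1 hs').ne
    have hs : (w.edges.map (lab f)).sum = 0 := by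
      rw [sum_lab add_self]
      exact add_self _
    refine no_short hk _ hnd h0 hs ?_
    rw [List.length_map, SimpleGraph.Walk.length_edges, hlen]
    omega

end Pool.Agent.Results.MP_4bc86c_co.PowersOfTwo
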